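import Pool.Agent.N65.GP.Defs

/-!
Project GP, leaf MO: the radius can be increased.
-/

set_option autoImplicit false

namespace Pool.Agent.N342.GP

open Pool.Agent.N65.GP

theorem t_MO : S_MO := by
  rintro k C R R' hR ⟨b⟩
  have h : ∀ z : ℂ, R' < ‖z‖ → R < ‖z‖ := fun z hz => lt_of_le_of_lt hR hz
  refine ⟨{
    yb := b.yb
    xb := b.xb
    pos := lt_of_lt_of_le b.pos hR
    rootY := fun c hc => b.rootY c (h c hc)
    rootX := fun m hm => b.rootX m (h m hm)
    injY := fun c hc => b.injY c (h c hc)
    injX := fun m hm => b.injX m (h m hm)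
    diffY := fun i => (b.diffY i).mono fun c hc => h c hc
    diffX := fun i => (b.diffX i).mono fun c hc => h c hc
    derivY := fun i c hc => b.derivY i c (h c hc)
    derivX := fun i m hm => b.derivX i m (h m hm)
    Fy_ne := fun i c hc => b.Fy_ne i c (h c hc)
    Fx_ne := fun i m hm => b.Fx_ne i m (h m hm)
    limY := b.limY
    limX := b.limX
    invX := fun i c hc hy => b.invX i c (h c hc) (h _ hy)
    invY := fun i m hm hx => b.invY i m (h m hm) (h _ hx) }⟩

end Pool.Agent.N342.GP
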